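import Pool.Agent.V5helper51.ML.Stm
import Pool.Agent.V5helper6.MT.CNT

/-!
# Project ML (helper51): job CNTL
-/

set_option autoImplicit false

open Finset MeasureTheory

namespace Pool.Agent.V5helper7.ML

open Pool.Agent.V5helper51.MT (S_WC blk)
open Pool.Agent.V5helper51.ML
open Pool.Agent.V5helper6.MT (card_near card_near_pi card_blk tr)

theorem boxl_bd (l P : ℕ) (z : Fin l → ℕ) (hz : z ∈ boxl l P) (i : Fin l) :
    2 * ((i : ℕ) + 1) * P ≤ z i ∧ z i ≤ (2 * (i : ℕ) + 3) * P := by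
  have := Fintype.mem_piFinset.1 hz i
  exact mem_Icc.1 this

/-- two solutions with the same first coordinates are near to each other -/
theorem near (hW : S_WC) (s r m : ℕ) (hm : 1 ≤ m) : ∃ C : ℝ, 0 < C ∧ ∀ P : ℕ, 1 ≤ P → ∀ D : ℝ, 0 ≤ D →
    ∀ c : ℕ → ℝ, ∀ x ∈ boxl (r + m) P, ∀ y ∈ boxl (r + m) P,
    (∀ j ∈ Icc 1 (s + (r + m)), |∑ i, (x i : ℝ) ^ j - c j| ≤ D) →
    (∀ j ∈ Icc 1 (s + (r + m)), |∑ i, (y i : ℝ) ^ j - c j| ≤ D) →
    (∀ i : Fin (r + m), (i : ℕ) < r → x i = y i) →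
    ∀ i : Fin (r + m), |(x i : ℝ) - y i| ≤ C * D / (P : ℝ) ^ (s + r) := by
  obtain ⟨C, hC, h⟩ := hW (s + r) m r hm
  have hm0 : (0 : ℝ) < m := by exact_mod_cast hm
  refine ⟨C * (m * 2), by positivity, ?_⟩
  intro P hP D hD c x hx y hy hx1 hy1 hxy i
  have hP1 : (1 : ℝ) ≤ P := by exact_mod_cast hP
  by_cases hi : (i : ℕ) < r
  · rw [hxy i hi, sub_self, abs_zero]; positivity
  · obtain ⟨l, rfl⟩ : ∃ l : Fin m, i = Fin.natAdd r l :=
      ⟨⟨i - r, by omega⟩, by ext; simp only [Fin.natAdd_mk]; omega⟩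
    have hb : ∀ z ∈ boxl (r + m) P, ∀ l : Fin m,
        2 * ((r : ℝ) + ((l : ℕ) : ℝ) + 1) * P ≤ ((z (Fin.natAdd r l) : ℕ) : ℝ) ∧
        ((z (Fin.natAdd r l) : ℕ) : ℝ) ≤ (2 * ((r : ℝ) + ((l : ℕ) : ℝ)) + 3) * P := by
      intro z hz l
      obtain ⟨h1, h2⟩ := boxl_bd _ _ z hz (Fin.natAdd r l)
      rw [Fin.val_natAdd] at h1 h2
      exact ⟨by exact_mod_cast h1, by exact_mod_cast h2⟩
    have h2 := h P (by linarith) (fun l => (x (Fin.natAdd r l) : ℝ)) (fun l => (y (Fin.natAdd r l) : ℝ))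
      (fun l => hb x hx l) (fun l => hb y hy l) l
    refine h2.trans ?_
    calc C * ∑ j ∈ Icc (s + r + 1) (s + r + m),
          |∑ l, ((x (Fin.natAdd r l) : ℝ) ^ j - (y (Fin.natAdd r l) : ℝ) ^ j)| / (P : ℝ) ^ (j - 1)
        ≤ C * ∑ j ∈ Icc (s + r + 1) (s + r + m), 2 * D / (P : ℝ) ^ (s + r) := by
          apply mul_le_mul_of_nonneg_left _ hC.le
          apply sum_le_sum
          intro j hj
          obtain ⟨hj1, hj2⟩ := mem_Icc.1 hj
          have e1 : ∑ l, ((x (Fin.natAdd r l) : ℝ) ^ j - (y (Fin.natAdd r l) : ℝ) ^ j) =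
              (∑ i, (x i : ℝ) ^ j - c j) - (∑ i, (y i : ℝ) ^ j - c j) := by
            rw [Fin.sum_univ_add, Fin.sum_univ_add, Finset.sum_sub_distrib]
            have : ∑ i : Fin r, (x (Fin.castAdd m i) : ℝ) ^ j = ∑ i : Fin r, (y (Fin.castAdd m i) : ℝ) ^ j := by
              apply sum_congr rfl
              intro i _
              rw [hxy _ (by simp)]
            rw [this]; ring
          apply div_le_div₀ (by positivity) _ (by positivity) (pow_le_pow_right₀ hP1 (by omega))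
          rw [e1]
          have h3 := hx1 j (mem_Icc.2 ⟨by omega, by omega⟩)
          have h4 := hy1 j (mem_Icc.2 ⟨by omega, by omega⟩)
          calc _ ≤ |∑ i, (x i : ℝ) ^ j - c j| + |∑ i, (y i : ℝ) ^ j - c j| := abs_sub _ _
            _ ≤ 2 * D := by linarith
      _ = C * (m * 2) * D / (P : ℝ) ^ (s + r) := by
          rw [sum_const, Nat.card_Icc, show s + r + m + 1 - (s + r + 1) = m by omega, nsmul_eq_mul]
          ring

theorem near_all (hW : S_WC) (s l : ℕ) : ∃ K : ℝ, 1 ≤ K ∧ ∀ r ≤ l, ∀ P : ℕ, 1 ≤ P → ∀ D : ℝ, 0 ≤ D →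
    ∀ c : ℕ → ℝ, ∀ x ∈ boxl l P, ∀ y ∈ boxl l P,
    (∀ j ∈ Icc 1 (s + l), |∑ i, (x i : ℝ) ^ j - c j| ≤ D) →
    (∀ j ∈ Icc 1 (s + l), |∑ i, (y i : ℝ) ^ j - c j| ≤ D) →
    (∀ i : Fin l, (i : ℕ) < r → x i = y i) →
    ∀ i : Fin l, |(x i : ℝ) - y i| ≤ K * D / (P : ℝ) ^ (s + r) := by
  have h1 : ∀ r : ℕ, ∃ C : ℝ, 0 < C ∧ (r ≤ l → ∀ P : ℕ, 1 ≤ P → ∀ D : ℝ, 0 ≤ D →
      ∀ c : ℕ → ℝ, ∀ x ∈ boxl l P, ∀ y ∈ boxl l P,
      (∀ j ∈ Icc 1 (s + l), |∑ i, (x i : ℝ) ^ j - c j| ≤ D) →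
      (∀ j ∈ Icc 1 (s + l), |∑ i, (y i : ℝ) ^ j - c j| ≤ D) →
      (∀ i : Fin l, (i : ℕ) < r → x i = y i) →
      ∀ i : Fin l, |(x i : ℝ) - y i| ≤ C * D / (P : ℝ) ^ (s + r)) := by
    intro r
    rcases lt_trichotomy r l with h | h | h
    · obtain ⟨m, rfl⟩ : ∃ m, l = r + m := ⟨l - r, by omega⟩
      obtain ⟨C, hC, hh⟩ := near hW s r m (by omega)
      exact ⟨C, hC, fun _ => hh⟩
    · refine ⟨1, one_pos, fun _ P hP D hD c x _ y _ _ _ hxy i => ?_⟩
      rw [hxy i (by omega), sub_self, abs_zero]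
      positivity
    · exact ⟨1, one_pos, fun h2 => absurd h2 (by omega)⟩
  choose C hC hh using h1
  refine ⟨∑ r ∈ range (l + 1), C r + 1, ?_, ?_⟩
  · have : 0 ≤ ∑ r ∈ range (l + 1), C r := sum_nonneg (fun r _ => (hC r).le)
    linarith
  · intro r hr P hP D hD c x hx y hy hx1 hy1 hxy i
    refine (hh r hr P hP D hD c x hx y hy hx1 hy1 hxy i).trans ?_
    have hP1 : (1 : ℝ) ≤ P := by exact_mod_cast hP
    apply div_le_div_of_nonneg_right _ (by positivity)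
    apply mul_le_mul_of_nonneg_right _ hD
    have : C r ≤ ∑ r ∈ range (l + 1), C r :=
      single_le_sum (fun r _ => (hC r).le) (mem_range.2 (by omega))
    linarith

theorem main_cnt (hW : S_WC) (s l : ℕ) : ∃ C : ℝ, 0 < C ∧ ∀ P : ℕ, 1 ≤ P → ∀ D : ℝ, 1 ≤ D → ∀ c : ℕ → ℝ,
    ∀ Sol : Finset (Fin l → ℕ), (∀ x ∈ Sol, x ∈ boxl l P ∧
      ∀ j ∈ Icc 1 (s + l), |∑ i, (x i : ℝ) ^ j - c j| ≤ D) → (Sol.card : ℝ) ≤ C * (1 + D / (P : ℝ) ^ s) := by
  obtain ⟨K, hK1, hK⟩ := near_all hW s l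
  refine ⟨((2 * ⌊K⌋₊ + 1 : ℕ) : ℝ) ^ l * (2 * K + 1) * 2 ^ l + 2 ^ l + ((2 * ⌊K⌋₊ + 1 : ℕ) : ℝ) ^ l, by positivity, ?_⟩
  intro P hP D hD c Sol hmem
  have hP1 : (1 : ℝ) ≤ P := by exact_mod_cast hP
  have hP0 : (0 : ℝ) < P := by linarith
  have hPs : (0 : ℝ) < (P : ℝ) ^ s := by positivity
  have hA0 : 0 ≤ ((2 * ⌊K⌋₊ + 1 : ℕ) : ℝ) ^ l * (2 * K + 1) * 2 ^ l := by positivity
  have hB0 : (0 : ℝ) ≤ ((2 * ⌊K⌋₊ + 1 : ℕ) : ℝ) ^ l := by positivity
  have hC0 : (0 : ℝ) ≤ 2 ^ l := by positivity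
  have hE0 : 0 ≤ D / (P : ℝ) ^ s := by positivity
  rcases lt_or_ge D ((P : ℝ) ^ s) with hD0 | hD0
  · -- all solutions are near to each other
    have h1 : Sol.card ≤ (2 * ⌊K⌋₊ + 1) ^ l := by
      apply card_near_pi
      intro x hx y hy i
      obtain ⟨hx3, hx4⟩ := hmem x hx
      obtain ⟨hy3, hy4⟩ := hmem y hy
      have h3 := hK 0 (Nat.zero_le l) P hP D (by linarith) c x hx3 y hy3 hx4 hy4
        (fun i hi => absurd hi (Nat.not_lt_zero _)) i
      refine h3.trans ?_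
      rw [add_zero, div_le_iff₀ (by positivity)]
      exact mul_le_mul_of_nonneg_left hD0.le (by linarith)
    have h2 : (Sol.card : ℝ) ≤ ((2 * ⌊K⌋₊ + 1 : ℕ) : ℝ) ^ l := by exact_mod_cast h1
    have h3 : ((2 * ⌊K⌋₊ + 1 : ℕ) : ℝ) ^ l ≤
        ((2 * ⌊K⌋₊ + 1 : ℕ) : ℝ) ^ l * (2 * K + 1) * 2 ^ l + 2 ^ l + ((2 * ⌊K⌋₊ + 1 : ℕ) : ℝ) ^ l := by
      linarith
    exact h2.trans (h3.trans (le_mul_of_one_le_right (by linarith) (by linarith)))
  -- it suffices to bound by the second term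
  suffices hfin : (Sol.card : ℝ) ≤
      (((2 * ⌊K⌋₊ + 1 : ℕ) : ℝ) ^ l * (2 * K + 1) * 2 ^ l + 2 ^ l) * (D / (P : ℝ) ^ s) by
    refine hfin.trans ?_
    have h4 : (((2 * ⌊K⌋₊ + 1 : ℕ) : ℝ) ^ l * (2 * K + 1) * 2 ^ l + 2 ^ l) * (D / (P : ℝ) ^ s) ≤
        (((2 * ⌊K⌋₊ + 1 : ℕ) : ℝ) ^ l * (2 * K + 1) * 2 ^ l + 2 ^ l + ((2 * ⌊K⌋₊ + 1 : ℕ) : ℝ) ^ l) *
          (D / (P : ℝ) ^ s) := mul_le_mul_of_nonneg_right (by linarith) hE0
    refine h4.trans (mul_le_mul_of_nonneg_left (by linarith) (by linarith))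
  rcases le_or_gt ((P : ℝ) ^ (s + l)) D with hD2 | hD2
  · -- the trivial bound
    have h1 : Sol.card ≤ (P + 1) ^ l := by
      calc Sol.card ≤ (boxl l P).card := card_le_card (fun x hx => (hmem x hx).1)
        _ = (P + 1) ^ l := by
            unfold boxl
            rw [Fintype.card_piFinset]
            simp only [card_blk, prod_const, card_univ, Fintype.card_fin]
    have h2 : (Sol.card : ℝ) ≤ 2 ^ l * (D / (P : ℝ) ^ s) := by
      calc (Sol.card : ℝ) ≤ (((P + 1) ^ l : ℕ) : ℝ) := by exact_mod_cast h1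
        _ = ((P : ℝ) + 1) ^ l := by push_cast; ring
        _ ≤ (2 * P) ^ l := by
            apply pow_le_pow_left₀ (by positivity)
            linarith
        _ = 2 ^ l * (P : ℝ) ^ l := by rw [mul_pow]
        _ ≤ 2 ^ l * (D / (P : ℝ) ^ s) := by
            apply mul_le_mul_of_nonneg_left _ (by positivity)
            rw [le_div_iff₀ hPs, ← pow_add, Nat.add_comm]
            exact hD2
    refine h2.trans (mul_le_mul_of_nonneg_right (by linarith) hE0)
  · -- the choice of `r`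
    set r := Nat.findGreatest (fun r => (P : ℝ) ^ (s + r) ≤ D) l with hr
    have hr1 : (P : ℝ) ^ (s + r) ≤ D :=
      Nat.findGreatest_spec (P := fun r => (P : ℝ) ^ (s + r) ≤ D) (Nat.zero_le l) (by simpa using hD0)
    have hrk : r ≤ l := Nat.findGreatest_le l
    have hrk2 : r < l := by
      rcases lt_or_eq_of_le hrk with h | h
      · exact h
      · rw [h] at hr1; linarith
    have hr2 : D < (P : ℝ) ^ (s + (r + 1)) := by
      have := Nat.findGreatest_is_greatest (P := fun r => (P : ℝ) ^ (s + r) ≤ D) (n := l) (k := r + 1)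
        (Nat.lt_succ_self r) hrk2
      exact not_le.1 this
    -- step 2: fibres of the truncation to `r + 1` coordinates
    have hs2 : Sol.card ≤ (2 * ⌊K⌋₊ + 1) ^ l * (Sol.image (tr (r + 1))).card := by
      apply card_le_mul_card_image
      intro z hz
      apply card_near_pi
      intro x hx y hy i
      obtain ⟨hx1, hx2⟩ := mem_filter.1 hx
      obtain ⟨hy1, hy2⟩ := mem_filter.1 hy
      obtain ⟨hx3, hx4⟩ := hmem x hx1
      obtain ⟨hy3, hy4⟩ := hmem y hy1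
      have h3 := hK (r + 1) hrk2 P hP D (by linarith) c x hx3 y hy3 hx4 hy4 (by
        intro i hi
        have := congrFun (hx2.trans hy2.symm) i
        simpa [tr, hi] using this) i
      refine h3.trans ?_
      rw [div_le_iff₀ (by positivity)]
      exact mul_le_mul_of_nonneg_left hr2.le (by linarith)
    -- step 1
    set t : ℝ := K * D / (P : ℝ) ^ (s + r) with ht
    have ht0 : 0 ≤ t := by positivity
    have hs1 : (Sol.image (tr (r + 1))).card ≤ (2 * ⌊t⌋₊ + 1) * ((Sol.image (tr (r + 1))).image (tr r)).card := by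
      apply card_le_mul_card_image
      intro z hz
      -- the map `x ↦ x r` is injective on this fibre
      have hinj : Set.InjOn (fun x : Fin l → ℕ => x ⟨r, hrk2⟩)
          (((Sol.image (tr (r + 1))).filter (fun x => tr r x = z) : Finset (Fin l → ℕ)) : Set (Fin l → ℕ)) := by
        intro x hx y hy hxy
        obtain ⟨hx1, hx2⟩ := mem_filter.1 (mem_coe.1 hx)
        obtain ⟨hy1, hy2⟩ := mem_filter.1 (mem_coe.1 hy)
        obtain ⟨x', -, rfl⟩ := mem_image.1 hx1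
        obtain ⟨y', -, rfl⟩ := mem_image.1 hy1
        funext i
        rcases lt_trichotomy (i : ℕ) r with h | h | h
        · have := congrFun (hx2.trans hy2.symm) i
          simpa [tr, h] using this
        · have e : i = ⟨r, hrk2⟩ := Fin.ext h
          rw [e]; exact hxy
        · simp only [tr]
          rw [if_neg (by omega), if_neg (by omega)]
      rw [← card_image_of_injOn hinj]
      apply card_near
      intro a ha b hb
      obtain ⟨x, hx, rfl⟩ := mem_image.1 ha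
      obtain ⟨y, hy, rfl⟩ := mem_image.1 hb
      obtain ⟨hx1, hx2⟩ := mem_filter.1 hx
      obtain ⟨hy1, hy2⟩ := mem_filter.1 hy
      obtain ⟨x', hx', rfl⟩ := mem_image.1 hx1
      obtain ⟨y', hy', rfl⟩ := mem_image.1 hy1
      obtain ⟨hx3, hx4⟩ := hmem x' hx'
      obtain ⟨hy3, hy4⟩ := hmem y' hy'
      have h3 := hK r hrk P hP D (by linarith) c x' hx3 y' hy3 hx4 hy4 (by
        intro i hi
        have := congrFun (hx2.trans hy2.symm) i
        simpa [tr, hi, Nat.lt_succ_of_lt hi] using this) ⟨r, hrk2⟩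
      simpa [tr] using h3
    -- step 0
    have hs0 : ((Sol.image (tr (r + 1))).image (tr r)).card ≤ (P + 1) ^ r := by
      have h4 : (Sol.image (tr (r + 1))).image (tr r) ⊆
          Fintype.piFinset (fun i : Fin l => if (i : ℕ) < r then blk P i else {0}) := by
        intro z hz
        obtain ⟨y, hy, rfl⟩ := mem_image.1 hz
        obtain ⟨x, hx, rfl⟩ := mem_image.1 hy
        rw [Fintype.mem_piFinset]
        intro i
        have h5 := Fintype.mem_piFinset.1 (hmem x hx).1 i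
        by_cases h : (i : ℕ) < r
        · simpa [tr, h, Nat.lt_succ_of_lt h] using h5
        · simp [tr, h]
      refine (card_le_card h4).trans ?_
      rw [Fintype.card_piFinset]
      have h5 : ∀ i : Fin l, (if (i : ℕ) < r then blk P i else ({0} : Finset ℕ)).card =
          if (i : ℕ) < r then P + 1 else 1 := by
        intro i
        split_ifs
        · exact card_blk P i
        · exact card_singleton 0
      simp only [h5]
      rw [Finset.prod_ite, prod_const, prod_const_one, mul_one]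
      apply le_of_eq
      congr 1
      have h6 : (univ.filter (fun i : Fin l => (i : ℕ) < r)).card = r := by
        rw [Fin.card_filter_val_lt]
        omega
      exact h6
    have ht2 : ((2 * ⌊t⌋₊ + 1 : ℕ) : ℝ) ≤ (2 * K + 1) * D / (P : ℝ) ^ (s + r) := by
      have h7 : (⌊t⌋₊ : ℝ) ≤ t := Nat.floor_le ht0
      have h8 : 1 ≤ D / (P : ℝ) ^ (s + r) := by
        rw [one_le_div (by positivity)]; exact hr1
      push_cast
      calc 2 * (⌊t⌋₊ : ℝ) + 1 ≤ 2 * t + D / (P : ℝ) ^ (s + r) := by linarith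
        _ = (2 * K + 1) * D / (P : ℝ) ^ (s + r) := by rw [ht]; ring
    have hfin : (Sol.card : ℝ) ≤ ((2 * ⌊K⌋₊ + 1 : ℕ) : ℝ) ^ l * (2 * K + 1) * 2 ^ l * (D / (P : ℝ) ^ s) := by
      have h9 : Sol.card ≤ (2 * ⌊K⌋₊ + 1) ^ l * ((2 * ⌊t⌋₊ + 1) * (P + 1) ^ r) :=
        hs2.trans (Nat.mul_le_mul_left _ (hs1.trans (Nat.mul_le_mul_left _ hs0)))
      have h10 : ((P : ℝ) + 1) ^ r ≤ 2 ^ l * (P : ℝ) ^ r := by
        calc ((P : ℝ) + 1) ^ r ≤ (2 * P) ^ r := by
              apply pow_le_pow_left₀ (by positivity)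
              linarith
          _ = 2 ^ r * (P : ℝ) ^ r := by rw [mul_pow]
          _ ≤ 2 ^ l * (P : ℝ) ^ r := by
              apply mul_le_mul_of_nonneg_right _ (by positivity)
              exact pow_le_pow_right₀ (by norm_num) hrk
      calc (Sol.card : ℝ) ≤ (((2 * ⌊K⌋₊ + 1) ^ l * ((2 * ⌊t⌋₊ + 1) * (P + 1) ^ r) : ℕ) : ℝ) := by
            exact_mod_cast h9
        _ = ((2 * ⌊K⌋₊ + 1 : ℕ) : ℝ) ^ l * (((2 * ⌊t⌋₊ + 1 : ℕ) : ℝ) * ((P : ℝ) + 1) ^ r) := by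
            push_cast; ring
        _ ≤ ((2 * ⌊K⌋₊ + 1 : ℕ) : ℝ) ^ l * (((2 * K + 1) * D / (P : ℝ) ^ (s + r)) * (2 ^ l * (P : ℝ) ^ r)) := by
            apply mul_le_mul_of_nonneg_left _ (by positivity)
            exact mul_le_mul ht2 h10 (by positivity) (by positivity)
        _ = ((2 * ⌊K⌋₊ + 1 : ℕ) : ℝ) ^ l * (2 * K + 1) * 2 ^ l * (D / (P : ℝ) ^ s) := by
            have h12 : (P : ℝ) ^ r ≠ 0 := by positivity
            have h13 : (P : ℝ) ^ s ≠ 0 := by positivity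
            rw [pow_add]
            field_simp
    have h11 : (0 : ℝ) ≤ 2 ^ l * (D / (P : ℝ) ^ s) := by positivity
    rw [add_mul]
    linarith

theorem t_CNTL (hW : S_WC) : S_CNTL := by
  intro k l hl hlk
  obtain ⟨s, rfl⟩ : ∃ s, k = s + l := ⟨k - l, by omega⟩
  obtain ⟨C, hC, h⟩ := main_cnt hW s l
  refine ⟨C, hC, ?_⟩
  intro P hP D hD c
  rw [Nat.add_sub_cancel]
  exact h P hP D hD c _ (fun x hx => (@Finset.mem_filter _ _ (_) _ _).1 hx)


end Pool.Agent.V5helper7.ML
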